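import Pool.Agent.N841.WS.Main
import Pool.Agent.N654.WSTREE
import Pool.Agent.N169.WSNB
import Pool.Agent.N38.WSWL
import Pool.Agent.N385.WSSEP
import Pool.Agent.N691.WSTB
import Pool.Agent.N933.WSKUR
import Pool.Agent.N853.WSFAM
import Pool.Agent.N398.WSWU
import Pool.Agent.N530.WS_INF

/-!
# MP_14431a_gt: the least weight of an omega-bounded abelian group which is not projectively
weight-small, and Kurepa families

`OmegaBounded`, `weight`, `ProjWeightSmall`, `BadWeights`, `sigma` (the cardinal `σ` of the problem,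
with `sigma = sInf BadWeights`), `traces`, `KurepaFamily` and `KurepaHypothesis` are defined in
`Pool/Agent/N841/WS/Stm.lean` and `Main.lean`; `𝔠 = 2 ^ ℵ₀`.

* `𝔠⁺ ≤ σ ≤ (2 ^ 𝔠)⁺` in ZFC.
* `σ = 𝔠⁺` iff there are more than `𝔠` subsets of a set of cardinality `𝔠` such that
  `2 ^ (number of traces on S) ≤ 𝔠` for every countable set `S`.
* If `𝔠 < 2 ^ ℵ₁`, then `σ = 𝔠⁺` iff there are more than `𝔠` subsets of a set of cardinality `𝔠` with
  only countably many traces on every countable set.
* If `𝔠 = ℵ₁` and `2 ^ ℵ₁ = ℵ₂`, then `σ = ℵ₂` under Kurepa's hypothesis, and `σ = ℵ₃` otherwise.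

Proof. For a family `𝒜` of subsets of `X` let `C_S`, `S` a countable subset of `X`, be the compact
group of the elements `k` of `(ℤ/2) ^ 𝒜` for which `k A` depends on `A ∩ S` only. The union of the
groups `C_S` is an omega-bounded group of weight `|𝒜|`. Conversely an omega-bounded group `H` with
`|H| ≤ 𝔠 < w(H)` has more than `𝔠` continuous characters (its completion is a compact group), and on
a countable set `S` they have at most as many restrictions as the compact group `C` generated by `S`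
has characters; if this is an uncountable cardinal `t` then `2 ^ t ≤ |C| ≤ 𝔠`, which is proved by
transfinite sums of elements `h_i` with `χ_j (h_i) = 1 ≠ χ_i (h_i)`, `j < i`.

Written by helper841 with helpers 654, 169, 398, 38, 385, 691, 530, 933, 853; the existence of
characters of compact abelian groups is from `Pool/Agent/H481R3` (starting files).
-/

set_option autoImplicit false

namespace Pool.Agent.Results.MP_14431a_gt.KurepaFamilies

open Cardinal Pool.Agent.N841.WS

theorem result :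
    -- `σ` is the weight of such a group
    sigma ∈ BadWeights ∧
    -- bounds in ZFC
    Order.succ 𝔠 ≤ sigma ∧ sigma ≤ Order.succ (2 ^ 𝔠) ∧
    -- when is `σ = 𝔠⁺`?
    (sigma = Order.succ 𝔠 ↔ KurepaFamily) ∧
    (𝔠 < 2 ^ (ℵ₁ : Cardinal.{0}) → (sigma = Order.succ 𝔠 ↔
      ∃ 𝒜 : Set (Set (ℕ → Bool)), 𝔠 < #𝒜 ∧
        ∀ S : Set (ℕ → Bool), S.Countable → (traces 𝒜 S).Countable)) ∧
    -- the value of `σ` if `𝔠 = ℵ₁` and `2 ^ ℵ₁ = ℵ₂`
    (𝔠 = (ℵ₁ : Cardinal.{0}) → (2 : Cardinal.{0}) ^ (ℵ₁ : Cardinal.{0}) = Order.succ ℵ₁ →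
      (KurepaHypothesis → sigma = Order.succ ℵ₁) ∧
      (¬ KurepaHypothesis → sigma = Order.succ (Order.succ ℵ₁))) :=
  final N654.WSTREE.t_TREE (Pool.Agent.N169.WSNB.t_NB t_PW Pool.Agent.N385.WS.t_SEP)
    Pool.Agent.N398.WSWU.t_WU Pool.Agent.N38.WSWL.t_WL Pool.Agent.N385.WS.t_SEP
    Pool.Agent.N691.WS.t_TB Pool.Agent.N530.WS.t_INF Pool.Agent.N933.WSKUR.t_KUR
    Pool.Agent.N853.WS.t_FAM

end Pool.Agent.Results.MP_14431a_gt.KurepaFamilies
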